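import Pool.Agent.Lib.MP_8a8b2f_an.Final

/-!
# A strongly stable contraction semigroup satisfying the lower resolvent bound

The right translation semigroup on `L^2((0,oo), (1+x)^(-2) dx)` is a C_0-semigroup of contractions
whose generator satisfies condition (i) with `m = sqrt 5 / 3`, and `T(t) x -> 0` for every `x`.
-/

set_option autoImplicit false

open MeasureTheory Set Filter Topology
open scoped ENNReal NNReal InnerProductSpace

noncomputable section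

namespace Pool.Agent.Results.MP_8a8b2f_an.StableSemigroup

open Pool.Agent.Lib

/-- `(T(t))_{t ≥ 0}` is a `C_0`-semigroup of contractions on `H` (the values `T t` for `t < 0` are
irrelevant): `T(0) = 1`, `T(s+t) = T(s) T(t)`, every orbit `t ↦ T(t) x` is continuous on `[0,∞)`,
and `‖T(t)‖ ≤ 1`. -/
structure IsContractionSemigroup {H : Type} [NormedAddCommGroup H] [InnerProductSpace ℂ H]
    (T : ℝ → H →L[ℂ] H) : Prop where
  zero : T 0 = ContinuousLinearMap.id ℂ H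
  add : ∀ s t : ℝ, 0 ≤ s → 0 ≤ t → T (s + t) = (T s).comp (T t)
  continuousOn : ∀ x : H, ContinuousOn (fun t : ℝ => T t x) (Ici 0)
  contraction : ∀ t : ℝ, 0 ≤ t → ‖T t‖ ≤ 1

/-- `x` lies in the domain `D(A)` of the generator `A` of `(T(t))`, and `A x = y`:
`y` is the limit of `(T(h) x - x)/h` as `h` decreases to `0`. -/
def GeneratorMaps {H : Type} [NormedAddCommGroup H] [InnerProductSpace ℂ H]
    (T : ℝ → H →L[ℂ] H) (x y : H) : Prop :=
  Tendsto (fun h : ℝ => ((h : ℂ)⁻¹) • (T h x - x)) (𝓝[>] 0) (𝓝 y)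

/-- Condition (i) with the constant `m`: `‖(μ - A) x‖ ≥ m |Re μ| ‖x‖` for all `μ` with
`Re μ < 0` and all `x` in the domain of the generator `A`. -/
def ConditionI {H : Type} [NormedAddCommGroup H] [InnerProductSpace ℂ H]
    (T : ℝ → H →L[ℂ] H) (m : ℝ) : Prop :=
  ∀ x y : H, GeneratorMaps T x y → ∀ μ : ℂ, μ.re < 0 → m * |μ.re| * ‖x‖ ≤ ‖μ • x - y‖

/-- Condition (ii): some `m₁ > 0` has `‖T(t) x‖ ≥ m₁ ‖x‖` for all `t ≥ 0` and all `x`. -/
def ConditionII {H : Type} [NormedAddCommGroup H] [InnerProductSpace ℂ H]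
    (T : ℝ → H →L[ℂ] H) : Prop :=
  ∃ m₁ : ℝ, 0 < m₁ ∧ ∀ t : ℝ, 0 ≤ t → ∀ x : H, m₁ * ‖x‖ ≤ ‖T t x‖

open MP_8a8b2f_an in
/-- The resolvent lower bound with the constant `sqrt 5 / 3`. -/
lemma resolvent_bound {x y : H} (hxy : GeneratorMaps T x y)
    {μ : ℂ} (hμ : μ.re < 0) : (Real.sqrt 5 / 3) * |μ.re| * ‖x‖ ≤ ‖μ • x - y‖ := by
  unfold GeneratorMaps at hxy
  set s : ℝ := -μ.re with hs
  have hs0 : 0 < s := by linarith
  set z : H := y - (μ.im * Complex.I) • x with hz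
  have e1 : μ • x - y = -((s : ℂ) • x + z) := by
    have : μ = -(s:ℂ) + μ.im * Complex.I := by
      apply Complex.ext <;> simp [hs]
    rw [hz]
    nth_rw 1 [this]
    rw [add_smul, neg_smul]
    abel
  have hre : (⟪x, z⟫_ℂ).re = (⟪x, y⟫_ℂ).re := by
    rw [hz, inner_sub_right, inner_smul_right, inner_self_eq_norm_sq_to_K]
    simp [← Complex.ofReal_pow]
  have hQx : (⟪Q x, x⟫_ℂ).im = 0 := by
    have h1 : (starRingEnd ℂ) ⟪Q x, x⟫_ℂ = ⟪Q x, x⟫_ℂ := by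
      rw [inner_conj_symm, Q_symm]
    have h2 := congrArg Complex.im h1
    rw [Complex.conj_im] at h2
    linarith
  have hreQ : (⟪Q x, z⟫_ℂ).re = (⟪Q x, y⟫_ℂ).re := by
    rw [hz, inner_sub_right, inner_smul_right]
    simp [hQx]
  have f1 := form_one hxy
  have f2 := form_two hxy
  have cs1 : (⟪Q x, x⟫_ℂ).re ≤ ‖Q x‖ * ‖x‖ :=
    (Complex.re_le_norm _).trans (norm_inner_le_norm _ _)
  have cs2 : -(⟪Q x, z⟫_ℂ).re ≤ ‖Q x‖ * ‖z‖ := by
    refine le_trans ?_ (norm_inner_le_norm (𝕜 := ℂ) _ _)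
    have := Complex.abs_re_le_norm (⟪Q x, z⟫_ℂ)
    exact (neg_le_abs _).trans this
  have hn : ‖(s : ℂ) • x + z‖ ^ 2 = s ^ 2 * ‖x‖ ^ 2 + 2 * s * (⟪x, z⟫_ℂ).re + ‖z‖ ^ 2 := by
    rw [norm_add_sq (𝕜 := ℂ), norm_smul, inner_smul_left, Complex.norm_real,
      Real.norm_of_nonneg hs0.le, Complex.conj_ofReal]
    have : RCLike.re ((s : ℂ) * ⟪x, z⟫_ℂ) = s * (⟪x, z⟫_ℂ).re := Complex.re_ofReal_mul _ _
    rw [this]; ring
  have hB : 3 / 4 * ‖Q x‖ ≤ ‖z‖ := by
    rcases eq_or_lt_of_le (norm_nonneg (Q x)) with h | h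
    · rw [← h]; simp
    · have : (3 / 4) * ‖Q x‖ ^ 2 ≤ ‖Q x‖ * ‖z‖ := by
        rw [hreQ] at cs2; linarith
      nlinarith
  have habs : |μ.re| = s := by rw [abs_of_neg hμ]
  rw [habs, e1, norm_neg]
  have hX := norm_nonneg x
  have hZ := norm_nonneg z
  have hQ := norm_nonneg (Q x)
  have h5 : (Real.sqrt 5) ^ 2 = 5 := Real.sq_sqrt (by norm_num)
  have main : ((Real.sqrt 5 / 3) * s * ‖x‖) ^ 2 ≤ ‖(s : ℂ) • x + z‖ ^ 2 := by
    rw [hn, hre]
    have h1 : 2 * s * (⟪x, y⟫_ℂ).re ≥ - (s * (‖Q x‖ * ‖x‖)) := by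
      have : 2 * s * (⟪x, y⟫_ℂ).re = s * (2 * (⟪x, y⟫_ℂ).re) := by ring
      rw [this, f1]
      have := mul_le_mul_of_nonneg_left cs1 hs0.le
      linarith
    have h2 : (3 / 4 * ‖Q x‖) ^ 2 ≤ ‖z‖ ^ 2 := pow_le_pow_left₀ (by positivity) hB 2
    have h3 : ((Real.sqrt 5 / 3) * s * ‖x‖) ^ 2 = 5 / 9 * (s * ‖x‖) ^ 2 := by
      rw [mul_pow, mul_pow, div_pow, h5]; ring
    rw [h3]
    nlinarith [sq_nonneg (3 / 4 * ‖Q x‖ - 2 / 3 * (s * ‖x‖))]
  exact le_of_sq_le_sq main (norm_nonneg _)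

open MP_8a8b2f_an in
/-- The lower bound `‖T(t) f‖ ≥ ‖f‖ / (1+t)`. -/
lemma norm_T_ge {t : ℝ} (ht : 0 ≤ t) (f : H) : ‖f‖ / (1 + t) ≤ ‖T t f‖ := by
  have h1 : ‖T t f‖ ^ 2 = ∫ x, rho t x * ‖f x‖ ^ 2 ∂nu := by
    have := integral_T ht (fun _ => 1) f
    simp only [one_mul] at this
    rw [← this, ← norm_sq_eq]
  have hint : Integrable (fun z => rho t z * ‖f z‖ ^ 2) nu := by
    refine (integrable_norm_sq f).mono' ((measurable_rho t).aestronglyMeasurable.mul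
      (integrable_norm_sq f).1) ?_
    filter_upwards [ae_pos] with z hz
    rw [norm_mul, Real.norm_of_nonneg (rho_nonneg t z), norm_pow, norm_norm]
    exact mul_le_of_le_one_left (by positivity) (rho_le_one ht hz)
  have h2 : ((1 + t)⁻¹) ^ 2 * ‖f‖ ^ 2 ≤ ‖T t f‖ ^ 2 := by
    rw [h1, norm_sq_eq, ← integral_const_mul]
    refine integral_mono_ae ((integrable_norm_sq f).const_mul _) hint ?_
    filter_upwards [ae_pos] with z hz
    refine mul_le_mul_of_nonneg_right ?_ (by positivity)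
    unfold rho
    refine pow_le_pow_left₀ (by positivity) ?_ 2
    rw [inv_eq_one_div, div_le_div_iff₀ (by positivity) (by positivity)]
    nlinarith
  rw [← mul_pow] at h2
  have h3 := le_of_sq_le_sq h2 (norm_nonneg _)
  rwa [div_eq_inv_mul]

/-- **Theorem.** There are a nonzero separable complex Hilbert space and a `C_0`-semigroup of
contractions on it whose generator satisfies condition (i) with `m = sqrt 5 / 3`, for which
condition (ii) fails, and in fact `T(t) x → 0` for every `x`, although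
`‖T(t) x‖ ≥ ‖x‖ / (1 + t)` for all `t ≥ 0` and all `x`. -/
theorem result :
    ∃ (H : Type) (_ : NormedAddCommGroup H) (_ : InnerProductSpace ℂ H) (_ : CompleteSpace H)
      (_ : TopologicalSpace.SeparableSpace H) (_ : Nontrivial H) (T : ℝ → H →L[ℂ] H),
      IsContractionSemigroup T ∧ ConditionI T (Real.sqrt 5 / 3) ∧ ¬ ConditionII T ∧
      (∀ x : H, Tendsto (fun t : ℝ => T t x) atTop (𝓝 0)) ∧
      (∀ t : ℝ, 0 ≤ t → ∀ x : H, ‖x‖ / (1 + t) ≤ ‖T t x‖) := by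
  have hstab : ∀ x : MP_8a8b2f_an.H,
      Tendsto (fun t : ℝ => MP_8a8b2f_an.T t x) atTop (𝓝 0) := by
    intro x
    rw [tendsto_zero_iff_norm_tendsto_zero]
    have h := MP_8a8b2f_an.tendsto_T_atTop x
    have h2 := (Real.continuous_sqrt.tendsto 0).comp h
    rw [Real.sqrt_zero] at h2
    refine h2.congr fun t => ?_
    exact Real.sqrt_sq (norm_nonneg _)
  obtain ⟨f, hf⟩ := MP_8a8b2f_an.exists_ne_zero
  refine ⟨MP_8a8b2f_an.H, inferInstance, inferInstance, inferInstance, ?_, ⟨⟨f, 0, hf⟩⟩,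
    MP_8a8b2f_an.T,
    ⟨MP_8a8b2f_an.T_zero, fun s t hs ht => MP_8a8b2f_an.T_add hs ht,
      fun x => MP_8a8b2f_an.continuousOn_T x, fun t _ => MP_8a8b2f_an.norm_T_le t⟩,
    fun x y hxy μ hμ => resolvent_bound hxy hμ, ?_, hstab, fun t ht x => norm_T_ge ht x⟩
  · have h2 : Fact ((2 : ENNReal) ≠ ⊤) := ⟨by norm_num⟩
    infer_instance
  · rintro ⟨m₁, hm₁, hall⟩
    have h1 := (hstab f).norm
    rw [norm_zero] at h1
    have h2 : m₁ * ‖f‖ ≤ 0 := by
      refine ge_of_tendsto h1 ?_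
      filter_upwards [Filter.eventually_ge_atTop (0 : ℝ)] with t ht
      exact hall t ht f
    have h3 : 0 < m₁ * ‖f‖ := mul_pos hm₁ (norm_pos_iff.2 hf)
    linarith

end Pool.Agent.Results.MP_8a8b2f_an.StableSemigroup
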